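import Mathlib
import Pool.Agent.H28.Comb

namespace Pool.Agent.Results.MP_349e68_an.InfiniteBackward

open Pool.Agent.H28.Comb

theorem result : ∃ (V : Type) (o : V) (par φ : V → V) (lam : ℂ), IsTree o par ∧
    BddComp o par φ ∧ 1 ≤ ‖lam‖ ∧ Hyp o par φ lam ∧
    ∀ v, {n : ℕ | 1 ≤ n ∧ ∃ w, φ^[n] w = v}.Infinite := by
  refine ⟨W, (0, 0), pa, Φ 1, 1, tree, main.1, by simp, main.2, fun v => ?_⟩
  exact (Set.Ici_infinite 1).mono fun n hn => ⟨hn, ((Φ_bij 1).iterate n).2 v⟩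

end Pool.Agent.Results.MP_349e68_an.InfiniteBackward
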